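import Pool.Agent.H33.C3.Lin

/-!
# Project C3, parts EXC and MOD (helper33)
-/

set_option autoImplicit false

namespace Pool.Agent.H33.C3

open Finset Pool.Agent.H82.C3

/-- at most two roots -/
theorem roots_card2 {q : ℕ} [Fact q.Prime] (b : ZMod q) :
    ((Finset.univ : Finset (ZMod q)).filter (fun x => x ^ 2 + x * b + b ^ 2 = 0)).card ≤ 2 := by
  classical
  let Q : Polynomial (ZMod q) := Polynomial.X ^ 2 + Polynomial.X * Polynomial.C b +
    Polynomial.C (b ^ 2)
  have hdeg : Q.natDegree = 2 := by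
    simp only [Q]
    compute_degree!
  have hQ : Q ≠ 0 := by
    intro h
    rw [h] at hdeg
    simp at hdeg
  have hsub : ((Finset.univ : Finset (ZMod q)).filter (fun x => x ^ 2 + x * b + b ^ 2 = 0)) ⊆
      Q.roots.toFinset := by
    intro x hx
    rw [Finset.mem_filter] at hx
    rw [Multiset.mem_toFinset, Polynomial.mem_roots hQ]
    have h := hx.2
    simp only [Q, Polynomial.IsRoot.def, Polynomial.eval_add, Polynomial.eval_mul,
      Polynomial.eval_pow, Polynomial.eval_X, Polynomial.eval_C]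
    exact h
  calc _ ≤ Q.roots.toFinset.card := Finset.card_le_card hsub
    _ ≤ Multiset.card Q.roots := Multiset.toFinset_card_le _
    _ ≤ Q.natDegree := Polynomial.card_roots' _
    _ = 2 := hdeg

/-- EXC -/
theorem t_EXC : S_EXC := by
  intro q W T hq hW
  have : Fact q.Prime := ⟨hq⟩
  classical
  have hcop : Nat.Coprime q (2 * W) := (Nat.Prime.coprime_iff_not_dvd hq).2 hW
  have key : ∀ l ∈ range T, (((range T ×ˢ range T).filter (fun z : ℕ × ℕ =>
      (q : ℤ) ∣ pp (ea W T z.1) (eb W T z.2) ∨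
      (q : ℤ) ∣ ea W T z.1 + 2 * eb W T z.2)).filter (fun z => z.2 = l)).card ≤
        3 * (T / q + 1) := by
    intro l _
    have h1 : (((range T ×ˢ range T).filter (fun z : ℕ × ℕ =>
      (q : ℤ) ∣ pp (ea W T z.1) (eb W T z.2) ∨
      (q : ℤ) ∣ ea W T z.1 + 2 * eb W T z.2)).filter (fun z => z.2 = l)).card ≤
        ((range T).filter (fun k : ℕ => (q : ℤ) ∣ pp (ea W T k) (eb W T l) ∨
          (q : ℤ) ∣ ea W T k + 2 * eb W T l)).card := by
      apply Finset.card_le_card_of_injOn (fun z => z.1)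
      · intro z hz
        simp only [coe_filter, mem_filter, mem_product, mem_range, Set.mem_ofPred_eq] at hz ⊢
        refine ⟨hz.1.1.1, ?_⟩
        have := hz.1.2
        rw [hz.2] at this
        exact this
      · intro z hz z' hz' h
        simp only [coe_filter, mem_filter, mem_product, mem_range, Set.mem_ofPred_eq] at hz hz'
        ext
        · exact h
        · rw [hz.2, hz'.2]
    refine h1.trans ?_
    apply card_class _ T q hq.pos (fun k hk => (Finset.mem_range.1 (Finset.mem_filter.1 hk).1))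
      (fun k => ((ea W T k : ℤ) : ZMod q))
      (((Finset.univ : Finset (ZMod q)).filter (fun x => x ^ 2 + x * ((eb W T l : ℤ) : ZMod q) +
        ((eb W T l : ℤ) : ZMod q) ^ 2 = 0)) ∪ {-(2 * ((eb W T l : ℤ) : ZMod q))}) 3
    · refine (Finset.card_union_le _ _).trans ?_
      rw [Finset.card_singleton]
      have := roots_card2 ((eb W T l : ℤ) : ZMod q)
      omega
    · intro k hk
      rw [Finset.mem_filter] at hk
      rw [Finset.mem_union, Finset.mem_filter, Finset.mem_singleton]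
      rcases hk.2 with h | h
      · left
        refine ⟨Finset.mem_univ _, ?_⟩
        have h2 := (ZMod.intCast_zmod_eq_zero_iff_dvd _ _).2 h
        unfold pp at h2
        push_cast at h2
        exact h2
      · right
        have h2 := (ZMod.intCast_zmod_eq_zero_iff_dvd _ _).2 h
        push_cast at h2
        exact eq_neg_of_add_eq_zero_left h2
    · intro k _ k' _ h
      apply mod_of_dvd hcop
      have h2 : (((ea W T k : ℤ) - (ea W T k' : ℤ) : ℤ) : ZMod q) = 0 := by
        rw [Int.cast_sub, h, sub_self]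
      have h3 := (ZMod.intCast_zmod_eq_zero_iff_dvd _ _).1 h2
      have h4 : (2 * W * (k : ℤ) - 2 * W * k') = (ea W T k : ℤ) - (ea W T k' : ℤ) := by
        unfold ea; ring
      rw [h4]; exact h3
  calc _ ≤ T * (3 * (T / q + 1)) := sum_fibres T _ _ (Finset.filter_subset _ _) key
    _ = 3 * T * (T / q + 1) := by ring

/-- MOD -/
theorem t_MOD : S_MOD := by
  intro W T hW z
  obtain ⟨i, j, k, l⟩ := z
  constructor
  · obtain ⟨w, hw⟩ := hW
    have hWz : (W : ℤ) = 2 * w + 1 := by rw [hw]; push_cast; ring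
    -- parities
    obtain ⟨a', ha⟩ : ∃ a' : ℤ, ea W T i = 2 * a' + 1 := ⟨100 * W * T + W * i, by unfold ea; ring⟩
    obtain ⟨b', hb⟩ : ∃ b' : ℤ, eb W T j = 2 * b' + 1 :=
      ⟨102 * W * T + w + W * j, by unfold eb; rw [hWz]; ring⟩
    obtain ⟨x', hx⟩ : ∃ x' : ℤ, ex W T k = 2 * x' + 1 :=
      ⟨8000000 * W ^ 3 * T ^ 3 + w + W * k, by unfold ex; rw [hWz]; ring⟩
    obtain ⟨y', hy⟩ : ∃ y' : ℤ, ey W l = 2 * y' := ⟨1 + W * l, by unfold ey; ring⟩
    obtain ⟨n', hn⟩ : ∃ n' : ℤ, nD W T (i, j, k, l) = 2 * n' + 1 := by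
      refine ⟨2 * x' ^ 2 + 2 * x' + (2 * x' + 1) * y' + 2 * y' ^ 2 -
        ((b' - a') * (2 * x' + 1) + (2 * a' + 1 + 2 * (2 * b' + 1)) * y') *
          ((2 * a' + 1) ^ 2 + (2 * a' + 1) * (2 * b' + 1) + (2 * b' + 1) ^ 2), ?_⟩
      unfold nD nn tt pp
      simp only [ha, hb, hx, hy]
      ring
    have hD : DV W T (i, j, k, l) = 4 * (mD W T (i, j, k, l) ^ 3 - n' ^ 2 - n' - 1) + 3 := by
      unfold DV DD
      rw [hn]; ring
    rw [hD]
    omega
  · intro q hq hqW h
    have : Fact q.Prime := ⟨hq⟩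
    have hW0 : (W : ZMod q) = 0 := (ZMod.natCast_eq_zero_iff W q).2 hqW
    have h1 := (ZMod.intCast_zmod_eq_zero_iff_dvd _ _).2 h
    have h2 : ((DV W T (i, j, k, l) : ℤ) : ZMod q) = -4 := by
      unfold DV DD mD nD mm nn tt pp ea eb ex ey
      push_cast
      rw [hW0]
      ring
    rw [h2] at h1
    have h3 : ((4 : ℕ) : ZMod q) = 0 := by
      have : (4 : ZMod q) = 0 := by
        rw [← neg_eq_zero]; exact h1
      exact_mod_cast this
    rw [ZMod.natCast_eq_zero_iff] at h3
    have h4 : q ∣ 2 := by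
      have : q ∣ 2 ^ 2 := h3
      exact hq.dvd_of_dvd_pow this
    have h5 : q = 2 := (Nat.prime_dvd_prime_iff_eq hq Nat.prime_two).1 h4
    rw [h5] at hqW
    obtain ⟨w, hw⟩ := hW
    omega

end Pool.Agent.H33.C3
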