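import Pool.Agent.H82.C3.Stm

/-!
# Project C3, parts LIX and LIN (helper33)
-/

set_option autoImplicit false

namespace Pool.Agent.H33.C3

open Finset Pool.Agent.H82.C3

/-- counting in residue classes -/
theorem card_class {β : Type} [DecidableEq β] (S : Finset ℕ) (N M : ℕ) (_hM : 0 < M)
    (hS : ∀ k ∈ S, k < N) (f : ℕ → β) (T : Finset β) (c : ℕ) (hT : T.card ≤ c)
    (hf : ∀ k ∈ S, f k ∈ T)
    (hc : ∀ k ∈ S, ∀ k' ∈ S, f k = f k' → k % M = k' % M) :
    S.card ≤ c * (N / M + 1) := by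
  have h1 : S.card ≤ (N / M + 1) * T.card := by
    apply Finset.card_le_mul_card_image_of_maps_to hf
    intro b _
    have : #({a ∈ S | f a = b}) ≤ (range (N / M + 1)).card := by
      apply Finset.card_le_card_of_injOn (fun k => k / M)
      · intro k hk
        simp only [coe_filter, Set.mem_ofPred_eq] at hk
        simp only [coe_range, Set.mem_Iio]
        have := hS k hk.1
        exact Nat.lt_succ_of_le (Nat.div_le_div_right this.le)
      · intro k hk k' hk' h
        simp only [coe_filter, Set.mem_ofPred_eq] at hk hk'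
        have h2 := hc k hk.1 k' hk'.1 (hk.2.trans hk'.2.symm)
        have h' : k / M = k' / M := h
        rw [← Nat.div_add_mod k M, ← Nat.div_add_mod k' M, h', h2]
    simpa using this
  calc S.card ≤ (N / M + 1) * T.card := h1
    _ ≤ (N / M + 1) * c := Nat.mul_le_mul_left _ hT
    _ = c * (N / M + 1) := by ring

/-- the same for pairs -/
theorem card_class2 {β : Type} [DecidableEq β] (S : Finset (ℕ × ℕ)) (N M : ℕ) (_hM : 0 < M)
    (hS : ∀ k ∈ S, k.1 < N ∧ k.2 < N) (f : ℕ × ℕ → β) (T : Finset β) (c : ℕ) (hT : T.card ≤ c)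
    (hf : ∀ k ∈ S, f k ∈ T)
    (hc : ∀ k ∈ S, ∀ k' ∈ S, f k = f k' → k.1 % M = k'.1 % M ∧ k.2 % M = k'.2 % M) :
    S.card ≤ c * (N / M + 1) ^ 2 := by
  have h1 : S.card ≤ (N / M + 1) ^ 2 * T.card := by
    apply Finset.card_le_mul_card_image_of_maps_to hf
    intro b _
    have : #({a ∈ S | f a = b}) ≤ (range (N / M + 1) ×ˢ range (N / M + 1)).card := by
      apply Finset.card_le_card_of_injOn (fun k => (k.1 / M, k.2 / M))
      · intro k hk
        simp only [coe_filter, Set.mem_ofPred_eq] at hk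
        simp only [coe_product, coe_range, Set.mem_prod, Set.mem_Iio]
        have := hS k hk.1
        exact ⟨Nat.lt_succ_of_le (Nat.div_le_div_right this.1.le),
          Nat.lt_succ_of_le (Nat.div_le_div_right this.2.le)⟩
      · intro k hk k' hk' h
        simp only [coe_filter, Set.mem_ofPred_eq] at hk hk'
        have h2 := hc k hk.1 k' hk'.1 (hk.2.trans hk'.2.symm)
        simp only [Prod.mk.injEq] at h
        ext
        · rw [← Nat.div_add_mod k.1 M, ← Nat.div_add_mod k'.1 M, h.1, h2.1]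
        · rw [← Nat.div_add_mod k.2 M, ← Nat.div_add_mod k'.2 M, h.2, h2.2]
    rw [Finset.card_product, Finset.card_range] at this
    rw [pow_two]
    exact this
  calc S.card ≤ (N / M + 1) ^ 2 * T.card := h1
    _ ≤ (N / M + 1) ^ 2 * c := Nat.mul_le_mul_left _ hT
    _ = c * (N / M + 1) ^ 2 := by ring

section Quartic
variable {R : Type} [CommRing R]

def c3 (a b y : R) : R := 2 * (y - (b - a) * (a ^ 2 + a * b + b ^ 2)) - 4 * a ^ 3
def c2 (a b y : R) : R := 12 * a ^ 2 * (b * y) + (y - (b - a) * (a ^ 2 + a * b + b ^ 2)) ^ 2 +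
  2 * (y ^ 2 - (a + 2 * b) * y * (a ^ 2 + a * b + b ^ 2))
def c1 (a b y : R) : R := 2 * (y - (b - a) * (a ^ 2 + a * b + b ^ 2)) *
  (y ^ 2 - (a + 2 * b) * y * (a ^ 2 + a * b + b ^ 2)) - 12 * a * (b * y) ^ 2
def c0 (a b y : R) : R := 4 * (b * y) ^ 3 + (y ^ 2 - (a + 2 * b) * y * (a ^ 2 + a * b + b ^ 2)) ^ 2

/-- `D` over a ring -/
def Df (a b x y : R) : R := 4 * (a * x - b * y) ^ 3 - (x ^ 2 + x * y + y ^ 2 -
        ((b - a) * x + (a + 2 * b) * y) * (a ^ 2 + a * b + b ^ 2)) ^ 2
/-- `∂D/∂x` over a ring -/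
def Dx (a b x y : R) : R := 12 * (a * x - b * y) ^ 2 * a - 2 * (x ^ 2 + x * y + y ^ 2 -
        ((b - a) * x + (a + 2 * b) * y) * (a ^ 2 + a * b + b ^ 2)) *
        (2 * x + y - (a ^ 2 + a * b + b ^ 2) * (b - a))

theorem Df_eq (a b x y : R) :
    Df a b x y = -(x ^ 4 + c3 a b y * x ^ 3 + c2 a b y * x ^ 2 + c1 a b y * x + c0 a b y) := by
  unfold Df c3 c2 c1 c0; ring

theorem Dx_eq (a b x y : R) :
    Dx a b x y = -(4 * x ^ 3 + 3 * c3 a b y * x ^ 2 + 2 * c2 a b y * x + c1 a b y) := by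
  unfold Dx c3 c2 c1; ring

theorem taylor (a b x h y : R) : Df a b (x + h) y - Df a b x y =
    h * (Dx a b x y + h * (-(6 * x ^ 2 + 4 * x * h + h ^ 2 + c3 a b y * (3 * x + h) +
      c2 a b y))) := by
  rw [Df_eq, Df_eq, Dx_eq]; ring

end Quartic

theorem DD_eq (a b x y : ℤ) : DD (mm a b x y) (nn a b x y) = Df a b x y := by
  unfold DD mm nn tt pp Df; rfl

/-- at most four roots -/
theorem roots_card {q : ℕ} [Fact q.Prime] (a b y : ZMod q) :
    ((Finset.univ : Finset (ZMod q)).filter (fun x => Df a b x y = 0)).card ≤ 4 := by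
  classical
  let Q : Polynomial (ZMod q) := Polynomial.X ^ 4 + Polynomial.C (c3 a b y) * Polynomial.X ^ 3 +
    Polynomial.C (c2 a b y) * Polynomial.X ^ 2 + Polynomial.C (c1 a b y) * Polynomial.X +
    Polynomial.C (c0 a b y)
  have hdeg : Q.natDegree = 4 := by
    simp only [Q]
    compute_degree!
  have hQ : Q ≠ 0 := by
    intro h
    rw [h] at hdeg
    simp at hdeg
  have hsub : ((Finset.univ : Finset (ZMod q)).filter (fun x => Df a b x y = 0)) ⊆
      Q.roots.toFinset := by
    intro x hx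
    rw [Finset.mem_filter] at hx
    rw [Multiset.mem_toFinset, Polynomial.mem_roots hQ]
    have h := hx.2
    rw [Df_eq, neg_eq_zero] at h
    simp only [Q, Polynomial.IsRoot.def, Polynomial.eval_add, Polynomial.eval_mul,
      Polynomial.eval_pow, Polynomial.eval_X, Polynomial.eval_C]
    exact h
  calc _ ≤ Q.roots.toFinset.card := Finset.card_le_card hsub
    _ ≤ Multiset.card Q.roots := Multiset.toFinset_card_le _
    _ ≤ Q.natDegree := Polynomial.card_roots' _
    _ = 4 := hdeg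

theorem cast_Df {q : ℕ} (a b x y : ℤ) :
    ((Df a b x y : ℤ) : ZMod q) = Df (a : ZMod q) (b : ZMod q) (x : ZMod q) (y : ZMod q) := by
  unfold Df; push_cast; ring

theorem cast_Dx {q : ℕ} (a b x y : ℤ) :
    ((Dx a b x y : ℤ) : ZMod q) = Dx (a : ZMod q) (b : ZMod q) (x : ZMod q) (y : ZMod q) := by
  unfold Dx; push_cast; ring

/-- `M ∣ 2W(k - k')` implies `k ≡ k'` -/
theorem mod_of_dvd {M W k k' : ℕ} (hM : Nat.Coprime M (2 * W))
    (h : (M : ℤ) ∣ 2 * W * (k : ℤ) - 2 * W * k') : k % M = k' % M := by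
  have h1 : (M : ℤ) ∣ (2 * W : ℕ) * ((k : ℤ) - k') := by
    have : ((2 * W : ℕ) : ℤ) * ((k : ℤ) - k') = 2 * W * (k : ℤ) - 2 * W * k' := by
      push_cast; ring
    rw [this]; exact h
  have h2 : IsCoprime (M : ℤ) ((2 * W : ℕ) : ℤ) := Nat.isCoprime_iff_coprime.2 hM
  have h3 : (M : ℤ) ∣ (k : ℤ) - k' := h2.dvd_of_dvd_mul_left h1
  have h4 : (k' : ℤ) ≡ k [ZMOD M] := Int.modEq_iff_dvd.2 h3
  have h5 : k' ≡ k [MOD M] := by exact_mod_cast h4
  exact h5.symm

theorem sum_fibres (N c : ℕ) (F : Finset (ℕ × ℕ)) (hF : F ⊆ range N ×ˢ range N)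
    (h : ∀ l ∈ range N, (F.filter (fun z => z.2 = l)).card ≤ c) : F.card ≤ N * c := by
  have h1 : F.card ≤ c * (range N).card := by
    apply Finset.card_le_mul_card_image_of_maps_to (f := fun z : ℕ × ℕ => z.2)
    · intro z hz
      exact (Finset.mem_product.1 (hF hz)).2
    · intro l hl
      exact h l hl
  rw [Finset.card_range] at h1
  rw [mul_comm]; exact h1

/-- LIX -/
theorem t_LIX : S_LIX := by
  intro q W hq hW a b x₀ y₀ N
  have : Fact q.Prime := ⟨hq⟩
  have hcop : Nat.Coprime q (2 * W) := (Nat.Prime.coprime_iff_not_dvd hq).2 hW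
  have key : ∀ l ∈ range N, (((range N ×ˢ range N).filter (fun z : ℕ × ℕ => (q : ℤ) ∣
      DD (mm a b (x₀ + 2 * W * z.1) (y₀ + 2 * W * z.2))
        (nn a b (x₀ + 2 * W * z.1) (y₀ + 2 * W * z.2)))).filter (fun z => z.2 = l)).card ≤
        4 * (N / q + 1) := by
    intro l _
    have h1 : (((range N ×ˢ range N).filter (fun z : ℕ × ℕ => (q : ℤ) ∣
      DD (mm a b (x₀ + 2 * W * z.1) (y₀ + 2 * W * z.2))
        (nn a b (x₀ + 2 * W * z.1) (y₀ + 2 * W * z.2)))).filter (fun z => z.2 = l)).card ≤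
        ((range N).filter (fun k : ℕ => (q : ℤ) ∣ Df a b (x₀ + 2 * W * k) (y₀ + 2 * W * l))).card := by
      apply Finset.card_le_card_of_injOn (fun z => z.1)
      · intro z hz
        simp only [coe_filter, mem_filter, mem_product, mem_range, Set.mem_ofPred_eq] at hz ⊢
        refine ⟨hz.1.1.1, ?_⟩
        have := hz.1.2
        rw [DD_eq, hz.2] at this
        exact this
      · intro z hz z' hz' h
        simp only [coe_filter, mem_filter, mem_product, mem_range, Set.mem_ofPred_eq] at hz hz'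
        ext
        · exact h
        · rw [hz.2, hz'.2]
    refine h1.trans ?_
    apply card_class _ N q hq.pos (fun k hk => (Finset.mem_range.1 (Finset.mem_filter.1 hk).1))
      (fun k => (((x₀ + 2 * W * k : ℤ)) : ZMod q))
      ((Finset.univ : Finset (ZMod q)).filter (fun x => Df (a : ZMod q) (b : ZMod q) x
        (((y₀ + 2 * W * l : ℤ)) : ZMod q) = 0)) 4 (roots_card _ _ _)
    · intro k hk
      rw [Finset.mem_filter] at hk ⊢
      refine ⟨Finset.mem_univ _, ?_⟩
      rw [← cast_Df]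
      exact (ZMod.intCast_zmod_eq_zero_iff_dvd _ _).2 hk.2
    · intro k _ k' _ h
      apply mod_of_dvd hcop
      have h2 : (((x₀ + 2 * W * k : ℤ) - (x₀ + 2 * W * k' : ℤ) : ℤ) : ZMod q) = 0 := by
        rw [Int.cast_sub]
        rw [h, sub_self]
      have h3 := (ZMod.intCast_zmod_eq_zero_iff_dvd _ _).1 h2
      have h4 : (2 * W * (k : ℤ) - 2 * W * k') = (x₀ + 2 * W * k : ℤ) - (x₀ + 2 * W * k' : ℤ) := by
        ring
      rw [h4]; exact h3
  calc _ ≤ N * (4 * (N / q + 1)) := sum_fibres N _ _ (Finset.filter_subset _ _) key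
    _ = 4 * N * (N / q + 1) := by ring

/-- LIN -/
theorem t_LIN (hS : S_SNG) : S_LIN := by
  intro q W hq hq5 hW a b x₀ y₀ hp hab N
  have : Fact q.Prime := ⟨hq⟩
  classical
  have hcop : Nat.Coprime q (2 * W) := (Nat.Prime.coprime_iff_not_dvd hq).2 hW
  have hcop2 : Nat.Coprime (q ^ 2) (2 * W) := Nat.Coprime.pow_left 2 hcop
  have hqi : Prime (q : ℤ) := Nat.prime_iff_prime_int.1 hq
  set F := (range N ×ˢ range N).filter (fun z : ℕ × ℕ => (q : ℤ) ^ 2 ∣
      DD (mm a b (x₀ + 2 * W * z.1) (y₀ + 2 * W * z.2))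
        (nn a b (x₀ + 2 * W * z.1) (y₀ + 2 * W * z.2))) with hF
  set P : ℕ × ℕ → Prop := fun z => (q : ℤ) ∣ Dx a b (x₀ + 2 * W * z.1) (y₀ + 2 * W * z.2) with hP
  have hsplit : F.card = (F.filter P).card + (F.filter (fun z => ¬ P z)).card :=
    (Finset.card_filter_add_card_filter_not P).symm
  -- the singular part
  have hsing : (F.filter P).card ≤ 6 * (N / q + 1) ^ 2 := by
    apply card_class2 _ N q hq.pos ?_
      (fun z => ((((x₀ + 2 * W * z.1 : ℤ)) : ZMod q), (((y₀ + 2 * W * z.2 : ℤ)) : ZMod q)))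
      ((Finset.univ : Finset (ZMod q × ZMod q)).filter (fun z =>
        Df (a : ZMod q) (b : ZMod q) z.1 z.2 = 0 ∧ Dx (a : ZMod q) (b : ZMod q) z.1 z.2 = 0)) 6
    · apply hS q hq5 (a : ZMod q) (b : ZMod q)
      · intro h
        apply hp
        rw [← ZMod.intCast_zmod_eq_zero_iff_dvd]
        unfold pp
        push_cast
        exact h
      · intro h
        apply hab
        rw [← ZMod.intCast_zmod_eq_zero_iff_dvd]
        push_cast
        exact h
      · intro z hz
        rw [Finset.mem_filter] at hz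
        exact hz.2
    · intro z hz
      simp only [hF, hP, mem_filter, mem_product, mem_range] at hz
      rw [Finset.mem_filter]
      refine ⟨Finset.mem_univ _, ?_, ?_⟩
      · rw [← cast_Df]
        rw [ZMod.intCast_zmod_eq_zero_iff_dvd]
        have := hz.1.2
        rw [DD_eq] at this
        exact (dvd_pow_self _ two_ne_zero).trans this
      · rw [← cast_Dx]
        rw [ZMod.intCast_zmod_eq_zero_iff_dvd]
        exact hz.2
    · intro z _ z' _ h
      simp only [Prod.mk.injEq] at h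
      constructor
      · apply mod_of_dvd hcop
        have h2 : (((x₀ + 2 * W * z.1 : ℤ) - (x₀ + 2 * W * z'.1 : ℤ) : ℤ) : ZMod q) = 0 := by
          rw [Int.cast_sub, h.1, sub_self]
        have h3 := (ZMod.intCast_zmod_eq_zero_iff_dvd _ _).1 h2
        have h4 : (2 * W * (z.1 : ℤ) - 2 * W * z'.1) =
          (x₀ + 2 * W * z.1 : ℤ) - (x₀ + 2 * W * z'.1 : ℤ) := by ring
        rw [h4]; exact h3
      · apply mod_of_dvd hcop
        have h2 : (((y₀ + 2 * W * z.2 : ℤ) - (y₀ + 2 * W * z'.2 : ℤ) : ℤ) : ZMod q) = 0 := by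
          rw [Int.cast_sub, h.2, sub_self]
        have h3 := (ZMod.intCast_zmod_eq_zero_iff_dvd _ _).1 h2
        have h4 : (2 * W * (z.2 : ℤ) - 2 * W * z'.2) =
          (y₀ + 2 * W * z.2 : ℤ) - (y₀ + 2 * W * z'.2 : ℤ) := by ring
        rw [h4]; exact h3
    · intro z hz
      simp only [hF, mem_filter, mem_product, mem_range] at hz
      exact hz.1.1
  -- the nonsingular part
  have hns : (F.filter (fun z => ¬ P z)).card ≤ 4 * N * (N / q ^ 2 + 1) := by
    have key : ∀ l ∈ range N, ((F.filter (fun z => ¬ P z)).filter (fun z => z.2 = l)).card ≤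
        4 * (N / q ^ 2 + 1) := by
      intro l _
      have h1 : ((F.filter (fun z => ¬ P z)).filter (fun z => z.2 = l)).card ≤
          ((range N).filter (fun k : ℕ => (q : ℤ) ^ 2 ∣ Df a b (x₀ + 2 * W * k) (y₀ + 2 * W * l) ∧
            ¬ (q : ℤ) ∣ Dx a b (x₀ + 2 * W * k) (y₀ + 2 * W * l))).card := by
        apply Finset.card_le_card_of_injOn (fun z => z.1)
        · intro z hz
          simp only [hF, hP, coe_filter, mem_filter, mem_product, mem_range,
            Set.mem_ofPred_eq] at hz ⊢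
          obtain ⟨⟨⟨⟨h1, h2⟩, h3⟩, h4⟩, h5⟩ := hz
          rw [DD_eq, h5] at h3
          rw [h5] at h4
          exact ⟨h1, h3, h4⟩
        · intro z hz z' hz' h
          simp only [coe_filter, mem_filter, Set.mem_ofPred_eq] at hz hz'
          ext
          · exact h
          · rw [hz.2, hz'.2]
      refine h1.trans ?_
      apply card_class _ N (q ^ 2) (pow_pos hq.pos 2)
        (fun k hk => (Finset.mem_range.1 (Finset.mem_filter.1 hk).1))
        (fun k => (((x₀ + 2 * W * k : ℤ)) : ZMod q))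
        ((Finset.univ : Finset (ZMod q)).filter (fun x => Df (a : ZMod q) (b : ZMod q) x
          (((y₀ + 2 * W * l : ℤ)) : ZMod q) = 0)) 4 (roots_card _ _ _)
      · intro k hk
        rw [Finset.mem_filter] at hk ⊢
        refine ⟨Finset.mem_univ _, ?_⟩
        rw [← cast_Df]
        exact (ZMod.intCast_zmod_eq_zero_iff_dvd _ _).2 ((dvd_pow_self _ two_ne_zero).trans hk.2.1)
      · intro k hk k' hk' h
        rw [Finset.mem_filter] at hk hk'
        obtain ⟨-, hk1, hk2⟩ := hk
        obtain ⟨-, hk1', -⟩ := hk'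
        apply mod_of_dvd hcop2
        have h2 : (((x₀ + 2 * W * k' : ℤ) - (x₀ + 2 * W * k : ℤ) : ℤ) : ZMod q) = 0 := by
          rw [Int.cast_sub]
          rw [h, sub_self]
        have h3 := (ZMod.intCast_zmod_eq_zero_iff_dvd _ _).1 h2
        obtain ⟨H, hH⟩ : ∃ H : ℤ, H = (x₀ + 2 * W * k' : ℤ) - (x₀ + 2 * W * k : ℤ) := ⟨_, rfl⟩
        rw [← hH] at h3
        have hx' : (x₀ + 2 * W * k' : ℤ) = (x₀ + 2 * W * k : ℤ) + H := by rw [hH]; ring
        rw [hx'] at hk1'
        have h5 := dvd_sub hk1' hk1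
        rw [taylor] at h5
        have h6 : IsCoprime ((q : ℤ) ^ 2) (Dx a b (x₀ + 2 * W * k) (y₀ + 2 * W * l) +
            H * (-(6 * (x₀ + 2 * W * k) ^ 2 + 4 * (x₀ + 2 * W * k) * H + H ^ 2 +
              c3 a b (y₀ + 2 * W * l) * (3 * (x₀ + 2 * W * k) + H) + c2 a b (y₀ + 2 * W * l)))) := by
          apply IsCoprime.pow_left
          rw [Prime.coprime_iff_not_dvd hqi]
          intro h7
          apply hk2
          exact (dvd_add_left (h3.mul_right _)).1 h7
        have h8 : (q : ℤ) ^ 2 ∣ H := h6.dvd_of_dvd_mul_right h5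
        have h9 : (2 * W * (k : ℤ) - 2 * W * k') = -H := by rw [hH]; ring
        rw [h9, Nat.cast_pow]
        exact (dvd_neg).2 h8
    calc _ ≤ N * (4 * (N / q ^ 2 + 1)) := by
          apply sum_fibres N _ _ ?_ key
          intro z hz
          exact (Finset.mem_filter.1 (Finset.mem_filter.1 hz).1).1
      _ = 4 * N * (N / q ^ 2 + 1) := by ring
  rw [hsplit]
  omega

end Pool.Agent.H33.C3
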